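import Pool.Agent.H47.SQ.Targets3
import Pool.Agent.H86.SSM.DGX
import Pool.Agent.H67.PLN.PL2

/-!
# A fixed assignment is good at the beginning (row XPE)
-/

set_option autoImplicit false

namespace Pool.Agent.H73.SQR

open Finset Pool.Agent.H97.RK Pool.Agent.H41.SS Pool.Agent.H47.SR

private theorem card_small (n q : ℕ) :
    ((univ : Finset (Finset (Fin n))).filter fun D => D.card ≤ q).card ≤ bl n q := by
  classical
  have h : ((univ : Finset (Finset (Fin n))).filter fun D => D.card ≤ q) ⊆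
      (range (q + 1)).biUnion fun i => powersetCard i (univ : Finset (Fin n)) := by
    intro D hD
    rw [mem_filter] at hD
    rw [mem_biUnion]
    exact ⟨D.card, mem_range.2 (by omega), mem_powersetCard.2 ⟨subset_univ _, rfl⟩⟩
  refine (card_le_card h).trans (card_biUnion_le.trans ?_)
  unfold bl
  refine le_of_eq (sum_congr rfl fun i _ => ?_)
  rw [card_powersetCard, card_univ, Fintype.card_fin]

private theorem card_pre (n i : ℕ) : (pre n i).card ≤ i := by
  have h : (pre n i).card ≤ (range i).card := by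
    refine card_le_card_of_injOn (fun v => v.1) ?_ ?_
    · intro v hv
      rw [mem_coe, pre, mem_filter] at hv
      rw [mem_coe, mem_range]
      exact hv.2
    · intro v _ w _ h
      exact Fin.ext h
  rwa [card_range] at h

theorem pf_XPE : T_XPE := by
  classical
  intro n k m t t₁ u₁ Ω hn hk hu hΩ hΩ2 x
  obtain ⟨N, hN⟩ : ∃ N : ℝ, N = Ω.card := ⟨_, rfl⟩
  unfold prE
  rw [← hN]
  have hn0 : (0 : ℝ) < n := by exact_mod_cast hn
  have hOm : (0 : ℝ) < ((Om n k).card : ℝ) := by exact_mod_cast card_Om_pos hk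
  have hOm2 : ((Om n k).card : ℝ) ≤ 2 * N := by
    rw [hN]
    exact_mod_cast hΩ2
  have hNpos : 0 < N := by linarith
  obtain ⟨P, hP⟩ : ∃ P : Finset (Fin n) → (Fin k → Fin n × Bool) → Prop,
      ∀ W h, P W h ↔
        ∀ i, (h i).1 ∈ (pre n (n - u₁) \ W) ∪ W ∧
          ((h i).1 ∈ pre n (n - u₁) \ W → x (h i).1 ≠ (h i).2) :=
    ⟨fun W h => ∀ i, (h i).1 ∈ (pre n (n - u₁) \ W) ∪ W ∧
      ((h i).1 ∈ pre n (n - u₁) \ W → x (h i).1 ≠ (h i).2), fun _ _ => Iff.rfl⟩
  let I : ℕ → Finset (Finset (Fin n)) := fun s => univ.filter fun W => W.card ≤ 2 * s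
  let S : ℕ → Finset (Fin n) → Finset (Fml n k m) := fun s W =>
    univ.filter fun F => (∀ c, F c ∈ Ω) ∧ s ≤ (univ.filter fun c => P W (F c)).card
  have hsub : (univ.filter fun F : Fml n k m => (∀ c, F c ∈ Ω) ∧ ¬ GdE F t t₁ u₁ x) ⊆
      (Icc t₁ (6 * t)).biUnion fun s => (I s).biUnion (S s) := by
    intro F hF
    rw [mem_filter] at hF
    have hX := hF.2.2
    unfold GdE at hX
    push Not at hX
    obtain ⟨s, W, hs1, hs2, hWs, hc⟩ := hX
    rw [mem_biUnion]
    refine ⟨s, mem_Icc.2 ⟨hs1, hs2⟩, ?_⟩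
    rw [mem_biUnion]
    refine ⟨W, mem_filter.2 ⟨mem_univ _, hWs⟩, ?_⟩
    rw [mem_filter]
    refine ⟨mem_univ _, hF.2.1, hc.trans (card_le_card ?_)⟩
    intro c hc
    rw [mem_filter] at hc ⊢
    refine ⟨mem_univ _, (hP _ _).2 fun i => ?_⟩
    obtain ⟨-, hc1, hc2⟩ := hc
    refine ⟨?_, hc2 i⟩
    have h1 := hc1 i
    rw [mem_union] at h1
    rw [mem_union, mem_sdiff]
    by_cases h2 : (F c i).1 ∈ W
    · exact Or.inr h2
    · exact Or.inl ⟨h1.resolve_right h2, h2⟩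
  have hb : ∀ s, ∀ W ∈ I s, ((S s W).card : ℝ) ≤
      (2 * m).choose s * (((n : ℝ) - u₁ + 4 * s) / (2 * n)) ^ (k * s) * N ^ m := by
    intro s W ha
    have hW : W.card ≤ 2 * s := (mem_filter.1 ha).2
    obtain ⟨a₀, ha₀⟩ : ∃ a₀ : ℕ, a₀ = n - u₁ + 4 * s := ⟨_, rfl⟩
    have ha₀' : (a₀ : ℝ) = (n : ℝ) - u₁ + 4 * s := by
      rw [ha₀]
      push_cast [hu]
      ring
    rw [← ha₀']
    have hch : (2 : ℝ) ^ s * m.choose s ≤ (2 * m).choose s := by
      exact_mod_cast Pool.Agent.H67.PLN.two_pow_mul_choose m s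
    have h1 : ((S s W).card : ℝ) * N ^ s ≤
        m.choose s * ((Ω.filter (P W)).card : ℝ) ^ s * N ^ m := by
      rw [hN]
      exact count_over' m s Ω (P W) (S s W) (fun F hF => (mem_filter.1 hF).2)
    have h2 : ((Ω.filter (P W)).card : ℝ) ≤ ((a₀ : ℝ) / (2 * n)) ^ k * (2 * N) := by
      have h3 := Pool.Agent.H66.RKS.card_lit x (pre n (n - u₁) \ W) W
      have h4 : (pre n (n - u₁) \ W).card ≤ n - u₁ :=
        (card_le_card sdiff_subset).trans (card_pre n _)
      have h5 := Pool.Agent.H86.SSM.card_clD' (k := k) _ a₀ (h3.trans (by omega)) hk hn (P W) (by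
        intro g hg i
        rw [mem_filter]
        exact ⟨mem_univ _, (hP W g).1 hg i⟩)
      have h6 : ((Ω.filter (P W)).card : ℝ) ≤ (((Om n k).filter (P W)).card : ℝ) := by
        exact_mod_cast card_le_card (filter_subset_filter _ hΩ)
      exact h6.trans (h5.trans (mul_le_mul_of_nonneg_left hOm2 (by positivity)))
    have h4 : ((S s W).card : ℝ) * N ^ s ≤
        ((2 * m).choose s * ((a₀ : ℝ) / (2 * n)) ^ (k * s) * N ^ m) * N ^ s := by
      calc ((S s W).card : ℝ) * N ^ s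
          ≤ m.choose s * ((Ω.filter (P W)).card : ℝ) ^ s * N ^ m := h1
        _ ≤ m.choose s * (((a₀ : ℝ) / (2 * n)) ^ k * (2 * N)) ^ s * N ^ m := by
            gcongr
        _ = (2 ^ s * m.choose s) * (((a₀ : ℝ) / (2 * n)) ^ (k * s) * N ^ m) * N ^ s := by
            rw [mul_pow, mul_pow, ← pow_mul]; ring
        _ ≤ (2 * m).choose s * (((a₀ : ℝ) / (2 * n)) ^ (k * s) * N ^ m) * N ^ s := by
            gcongr
        _ = ((2 * m).choose s * ((a₀ : ℝ) / (2 * n)) ^ (k * s) * N ^ m) * N ^ s := by ring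
    exact le_of_mul_le_mul_right h4 (by positivity)
  have hu' : (0 : ℝ) ≤ (n : ℝ) - u₁ := by
    have : (u₁ : ℝ) ≤ n := by exact_mod_cast hu
    linarith
  have hs : ∀ s, (((I s).biUnion (S s)).card : ℝ) ≤
      ((bl n (2 * s) : ℝ) * (2 * m).choose s *
        (((n : ℝ) - u₁ + 4 * s) / (2 * n)) ^ (k * s)) * N ^ m := by
    intro s
    have hI : ((I s).card : ℝ) ≤ bl n (2 * s) := by exact_mod_cast card_small n (2 * s)
    calc (((I s).biUnion (S s)).card : ℝ)
        ≤ ((∑ W ∈ I s, (S s W).card : ℕ) : ℝ) := by exact_mod_cast card_biUnion_le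
      _ = ∑ W ∈ I s, ((S s W).card : ℝ) := by push_cast; rfl
      _ ≤ ∑ _W ∈ I s, (2 * m).choose s * (((n : ℝ) - u₁ + 4 * s) / (2 * n)) ^ (k * s) * N ^ m :=
          sum_le_sum (hb s)
      _ = (I s).card * ((2 * m).choose s * (((n : ℝ) - u₁ + 4 * s) / (2 * n)) ^ (k * s) *
          N ^ m) := by rw [sum_const, nsmul_eq_mul]
      _ ≤ (bl n (2 * s) : ℝ) * ((2 * m).choose s * (((n : ℝ) - u₁ + 4 * s) / (2 * n)) ^ (k * s) *
          N ^ m) := by
          refine mul_le_mul_of_nonneg_right hI ?_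
          positivity
      _ = _ := by ring
  calc ((univ.filter fun F : Fml n k m => (∀ c, F c ∈ Ω) ∧ ¬ GdE F t t₁ u₁ x).card : ℝ)
      ≤ (((Icc t₁ (6 * t)).biUnion fun s => (I s).biUnion (S s)).card : ℝ) := by
        exact_mod_cast card_le_card hsub
    _ ≤ ((∑ s ∈ Icc t₁ (6 * t), ((I s).biUnion (S s)).card : ℕ) : ℝ) := by
        exact_mod_cast card_biUnion_le
    _ = ∑ s ∈ Icc t₁ (6 * t), (((I s).biUnion (S s)).card : ℝ) := by push_cast; rfl
    _ ≤ ∑ s ∈ Icc t₁ (6 * t), ((bl n (2 * s) : ℝ) * (2 * m).choose s *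
        (((n : ℝ) - u₁ + 4 * s) / (2 * n)) ^ (k * s)) * N ^ m := sum_le_sum fun s _ => hs s
    _ = _ := by rw [sum_mul]

end Pool.Agent.H73.SQR
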